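import Mathlib
import Pool.Agent.Helper40.CX.Good2

/-!
# KP: plane cubics (the part of `Helper15.KP.Defs` on cubics)
-/

set_option linter.unusedSectionVars false

namespace CX

namespace Pool.Agent.Helper15.KP

/-! ### Cubics in two variables -/

section cubic

variable {R : Type*} [CommRing R]

/-- The cubic with the coefficients `c` (of `s³, s²t, s², st², st, s, t³, t², t, 1`). -/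
def cub (c : Fin 10 → R) (s t : R) : R :=
  c 0 * s ^ 3 + c 1 * s ^ 2 * t + c 2 * s ^ 2 + c 3 * s * t ^ 2 + c 4 * s * t + c 5 * s + c 6 * t ^ 3 +
    c 7 * t ^ 2 + c 8 * t + c 9

/-- Forty-eight times the invariant `S` of a plane cubic. -/
def PS (c : Fin 10 → R) : R :=
  - 144 * c 0 * c 3 * c 7 * c 9 + 48 * c 0 * c 3 * c 8 ^ 2 + 216 * c 0 * c 4 * c 6 * c 9 - 24 * c 0 * c 4 * c 7 * c 8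
  - 144 * c 0 * c 5 * c 6 * c 8 + 48 * c 0 * c 5 * c 7 ^ 2 + 48 * c 1 ^ 2 * c 7 * c 9 - 16 * c 1 ^ 2 * c 8 ^ 2
  - 144 * c 1 * c 2 * c 6 * c 9 + 16 * c 1 * c 2 * c 7 * c 8 - 24 * c 1 * c 3 * c 4 * c 9 + 16 * c 1 * c 3 * c 5 * c 8
  + 8 * c 1 * c 4 ^ 2 * c 8 - 24 * c 1 * c 4 * c 5 * c 7 + 48 * c 1 * c 5 ^ 2 * c 6 + 48 * c 2 ^ 2 * c 6 * c 8
  - 16 * c 2 ^ 2 * c 7 ^ 2 + 48 * c 2 * c 3 ^ 2 * c 9 - 24 * c 2 * c 3 * c 4 * c 8 + 16 * c 2 * c 3 * c 5 * c 7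
  + 8 * c 2 * c 4 ^ 2 * c 7 - 24 * c 2 * c 4 * c 5 * c 6 - 16 * c 3 ^ 2 * c 5 ^ 2 + 8 * c 3 * c 4 ^ 2 * c 5 - c 4 ^ 4

/-- 864 times the invariant `T` of a plane cubic. -/
def PT (c : Fin 10 → R) : R :=
  - 5832 * c 0 ^ 2 * c 6 ^ 2 * c 9 ^ 2 + 3888 * c 0 ^ 2 * c 6 * c 7 * c 8 * c 9
  - 864 * c 0 ^ 2 * c 6 * c 8 ^ 3 - 864 * c 0 ^ 2 * c 7 ^ 3 * c 9 + 216 * c 0 ^ 2 * c 7 ^ 2 * c 8 ^ 2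
  + 3888 * c 0 * c 1 * c 3 * c 6 * c 9 ^ 2 - 1296 * c 0 * c 1 * c 3 * c 7 * c 8 * c 9
  + 288 * c 0 * c 1 * c 3 * c 8 ^ 3 - 1296 * c 0 * c 1 * c 4 * c 6 * c 8 * c 9
  + 864 * c 0 * c 1 * c 4 * c 7 ^ 2 * c 9 - 144 * c 0 * c 1 * c 4 * c 7 * c 8 ^ 2
  - 1296 * c 0 * c 1 * c 5 * c 6 * c 7 * c 9 + 864 * c 0 * c 1 * c 5 * c 6 * c 8 ^ 2
  - 144 * c 0 * c 1 * c 5 * c 7 ^ 2 * c 8 - 1296 * c 0 * c 2 * c 3 * c 6 * c 8 * c 9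
  + 864 * c 0 * c 2 * c 3 * c 7 ^ 2 * c 9 - 144 * c 0 * c 2 * c 3 * c 7 * c 8 ^ 2
  - 1296 * c 0 * c 2 * c 4 * c 6 * c 7 * c 9 + 864 * c 0 * c 2 * c 4 * c 6 * c 8 ^ 2
  - 144 * c 0 * c 2 * c 4 * c 7 ^ 2 * c 8 + 3888 * c 0 * c 2 * c 5 * c 6 ^ 2 * c 9
  - 1296 * c 0 * c 2 * c 5 * c 6 * c 7 * c 8 + 288 * c 0 * c 2 * c 5 * c 7 ^ 3
  - 864 * c 0 * c 3 ^ 3 * c 9 ^ 2 + 864 * c 0 * c 3 ^ 2 * c 4 * c 8 * c 9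
  + 864 * c 0 * c 3 ^ 2 * c 5 * c 7 * c 9 - 576 * c 0 * c 3 ^ 2 * c 5 * c 8 ^ 2
  - 648 * c 0 * c 3 * c 4 ^ 2 * c 7 * c 9 - 72 * c 0 * c 3 * c 4 ^ 2 * c 8 ^ 2
  - 1296 * c 0 * c 3 * c 4 * c 5 * c 6 * c 9 + 720 * c 0 * c 3 * c 4 * c 5 * c 7 * c 8
  + 864 * c 0 * c 3 * c 5 ^ 2 * c 6 * c 8 - 576 * c 0 * c 3 * c 5 ^ 2 * c 7 ^ 2
  + 540 * c 0 * c 4 ^ 3 * c 6 * c 9 + 36 * c 0 * c 4 ^ 3 * c 7 * c 8 - 648 * c 0 * c 4 ^ 2 * c 5 * c 6 * c 8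
  - 72 * c 0 * c 4 ^ 2 * c 5 * c 7 ^ 2 + 864 * c 0 * c 4 * c 5 ^ 2 * c 6 * c 7
  - 864 * c 0 * c 5 ^ 3 * c 6 ^ 2 - 864 * c 1 ^ 3 * c 6 * c 9 ^ 2 + 288 * c 1 ^ 3 * c 7 * c 8 * c 9
  - 64 * c 1 ^ 3 * c 8 ^ 3 + 864 * c 1 ^ 2 * c 2 * c 6 * c 8 * c 9 - 576 * c 1 ^ 2 * c 2 * c 7 ^ 2 * c 9
  + 96 * c 1 ^ 2 * c 2 * c 7 * c 8 ^ 2 + 216 * c 1 ^ 2 * c 3 ^ 2 * c 9 ^ 2
  - 144 * c 1 ^ 2 * c 3 * c 4 * c 8 * c 9 - 144 * c 1 ^ 2 * c 3 * c 5 * c 7 * c 9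
  + 96 * c 1 ^ 2 * c 3 * c 5 * c 8 ^ 2 - 72 * c 1 ^ 2 * c 4 ^ 2 * c 7 * c 9
  + 48 * c 1 ^ 2 * c 4 ^ 2 * c 8 ^ 2 + 864 * c 1 ^ 2 * c 4 * c 5 * c 6 * c 9
  - 144 * c 1 ^ 2 * c 4 * c 5 * c 7 * c 8 - 576 * c 1 ^ 2 * c 5 ^ 2 * c 6 * c 8
  + 216 * c 1 ^ 2 * c 5 ^ 2 * c 7 ^ 2 + 864 * c 1 * c 2 ^ 2 * c 6 * c 7 * c 9
  - 576 * c 1 * c 2 ^ 2 * c 6 * c 8 ^ 2 + 96 * c 1 * c 2 ^ 2 * c 7 ^ 2 * c 8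
  - 144 * c 1 * c 2 * c 3 ^ 2 * c 8 * c 9 + 720 * c 1 * c 2 * c 3 * c 4 * c 7 * c 9
  - 144 * c 1 * c 2 * c 3 * c 4 * c 8 ^ 2 - 1296 * c 1 * c 2 * c 3 * c 5 * c 6 * c 9
  + 48 * c 1 * c 2 * c 3 * c 5 * c 7 * c 8 - 648 * c 1 * c 2 * c 4 ^ 2 * c 6 * c 9
  + 24 * c 1 * c 2 * c 4 ^ 2 * c 7 * c 8 + 720 * c 1 * c 2 * c 4 * c 5 * c 6 * c 8
  - 144 * c 1 * c 2 * c 4 * c 5 * c 7 ^ 2 - 144 * c 1 * c 2 * c 5 ^ 2 * c 6 * c 7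
  - 144 * c 1 * c 3 ^ 2 * c 4 * c 5 * c 9 + 96 * c 1 * c 3 ^ 2 * c 5 ^ 2 * c 8
  + 36 * c 1 * c 3 * c 4 ^ 3 * c 9 + 24 * c 1 * c 3 * c 4 ^ 2 * c 5 * c 8
  - 144 * c 1 * c 3 * c 4 * c 5 ^ 2 * c 7 + 288 * c 1 * c 3 * c 5 ^ 3 * c 6 - 12 * c 1 * c 4 ^ 4 * c 8
  + 36 * c 1 * c 4 ^ 3 * c 5 * c 7 - 72 * c 1 * c 4 ^ 2 * c 5 ^ 2 * c 6 - 864 * c 2 ^ 3 * c 6 ^ 2 * c 9
  + 288 * c 2 ^ 3 * c 6 * c 7 * c 8 - 64 * c 2 ^ 3 * c 7 ^ 3 - 576 * c 2 ^ 2 * c 3 ^ 2 * c 7 * c 9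
  + 216 * c 2 ^ 2 * c 3 ^ 2 * c 8 ^ 2 + 864 * c 2 ^ 2 * c 3 * c 4 * c 6 * c 9
  - 144 * c 2 ^ 2 * c 3 * c 4 * c 7 * c 8 - 144 * c 2 ^ 2 * c 3 * c 5 * c 6 * c 8
  + 96 * c 2 ^ 2 * c 3 * c 5 * c 7 ^ 2 - 72 * c 2 ^ 2 * c 4 ^ 2 * c 6 * c 8
  + 48 * c 2 ^ 2 * c 4 ^ 2 * c 7 ^ 2 - 144 * c 2 ^ 2 * c 4 * c 5 * c 6 * c 7
  + 216 * c 2 ^ 2 * c 5 ^ 2 * c 6 ^ 2 + 288 * c 2 * c 3 ^ 3 * c 5 * c 9 - 72 * c 2 * c 3 ^ 2 * c 4 ^ 2 * c 9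
  - 144 * c 2 * c 3 ^ 2 * c 4 * c 5 * c 8 + 96 * c 2 * c 3 ^ 2 * c 5 ^ 2 * c 7
  + 36 * c 2 * c 3 * c 4 ^ 3 * c 8 + 24 * c 2 * c 3 * c 4 ^ 2 * c 5 * c 7
  - 144 * c 2 * c 3 * c 4 * c 5 ^ 2 * c 6 - 12 * c 2 * c 4 ^ 4 * c 7 + 36 * c 2 * c 4 ^ 3 * c 5 * c 6
  - 64 * c 3 ^ 3 * c 5 ^ 3 + 48 * c 3 ^ 2 * c 4 ^ 2 * c 5 ^ 2 - 12 * c 3 * c 4 ^ 4 * c 5 + c 4 ^ 6

/-- The discriminant of the cubic, up to a constant. -/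
def Dsc (c : Fin 10 → R) : R := PS c ^ 3 + PT c ^ 2

/-- The discriminant of the binary cubic of the leading terms. -/
def Dbin (c : Fin 10 → R) : R :=
  c 1 ^ 2 * c 3 ^ 2 - 4 * c 0 * c 3 ^ 3 - 4 * c 1 ^ 3 * c 6 - 27 * c 0 ^ 2 * c 6 ^ 2 + 18 * c 0 * c 1 * c 3 * c 6

/-- The leading terms of the cubic in the direction `(v, 1)`. -/
def bin (c : Fin 10 → R) (v : R) : R := c 0 * v ^ 3 + c 1 * v ^ 2 + c 3 * v + c 6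

/-! On the line `s = r + v t` the cubic is `(a1 r + a0) t² + (b2 r² + b1 r + b0) t + (c 0 r³ + c 2 r² + c 5 r + c 9)`,
if `v` is a root of `bin c`; the discriminant is `q4 r⁴ + q3 r³ + q2 r² + q1 r + q0`. -/

def a1 (c : Fin 10 → R) (v : R) : R := 3 * c 0 * v ^ 2 + 2 * c 1 * v + c 3
def a0 (c : Fin 10 → R) (v : R) : R := c 2 * v ^ 2 + c 4 * v + c 7
def b2 (c : Fin 10 → R) (v : R) : R := 3 * c 0 * v + c 1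
def b1 (c : Fin 10 → R) (v : R) : R := 2 * c 2 * v + c 4
def b0 (c : Fin 10 → R) (v : R) : R := c 5 * v + c 8
def q4 (c : Fin 10 → R) (v : R) : R := b2 c v ^ 2 - 4 * a1 c v * c 0
def q3 (c : Fin 10 → R) (v : R) : R := 2 * b2 c v * b1 c v - 4 * (a1 c v * c 2 + a0 c v * c 0)
def q2 (c : Fin 10 → R) (v : R) : R := b1 c v ^ 2 + 2 * b2 c v * b0 c v - 4 * (a1 c v * c 5 + a0 c v * c 2)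
def q1 (c : Fin 10 → R) (v : R) : R := 2 * b1 c v * b0 c v - 4 * (a1 c v * c 9 + a0 c v * c 5)
def q0 (c : Fin 10 → R) (v : R) : R := b0 c v ^ 2 - 4 * a0 c v * c 9

/-- The square root of the discriminant. -/
def ww (c : Fin 10 → R) (v s t : R) : R :=
  2 * (a1 c v * (s - v * t) + a0 c v) * t + (b2 c v * (s - v * t) ^ 2 + b1 c v * (s - v * t) + b0 c v)

/-- The Weierstrass coordinates for the quartic `w² = q² r⁴ + e3 r³ + e2 r² + e1 r + e0`. -/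
def xr (q e3 e2 r w : R) : R := 3 * (6 * q * (w + q * r ^ 2) + 3 * e3 * r + e2)
def yr (q e3 e2 e1 r w : R) : R :=
  27 * (q * (4 * q ^ 2 * r ^ 3 + 3 * e3 * r ^ 2 + 2 * e2 * r + e1) + (4 * q ^ 2 * r + e3) * w)

/-- The Weierstrass coordinates of the point `(s, t)` of the cubic, the origin is the point at infinity in the
direction `v k`; the projection is from the point in the direction `v m`. -/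
def xx (c : Fin 10 → R) (v : Fin 3 → R) (i k m : Fin 3) (s t : R) : R :=
  xr (c 0 * (v i - v k)) (q3 c (v m)) (q2 c (v m)) (s - v m * t) (ww c (v m) s t)
def yy (c : Fin 10 → R) (v : Fin 3 → R) (i k m : Fin 3) (s t : R) : R :=
  yr (c 0 * (v i - v k)) (q3 c (v m)) (q2 c (v m)) (q1 c (v m)) (s - v m * t) (ww c (v m) s t)

/-- `v 0, v 1, v 2` are the roots of `bin c`. -/
def Rts (c : Fin 10 → R) (v : Fin 3 → R) : Prop :=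
  c 1 = - c 0 * (v 0 + v 1 + v 2) ∧ c 3 = c 0 * (v 0 * v 1 + v 1 * v 2 + v 2 * v 0) ∧
    c 6 = - c 0 * v 0 * v 1 * v 2

end cubic

end Pool.Agent.Helper15.KP

end CX
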