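import Mathlib
import Pool.Agent.Helper9.NS
import Pool.Agent.Helper40.CX.H15GT.RDefs
import Pool.Agent.Helper40.CX.Good2
import Pool.Agent.Helper40.CX.H15KP.Cub

namespace CX

/-!
# KP: surfaces with p_g = K ^ 2 = 1, definitions

Project KP (MP_83b46e_ag): Voisin's conjecture for the surfaces `z ^ 2 = a w + F`, `w ^ 2 = b z + G`.
-/

set_option linter.unusedSectionVars false

namespace Pool.Agent.Helper15.KP

open VC VF Function Polynomial Pool.Agent.Helper21.TO Pool.Agent.Helper15.GT

universe u

/-! ### Functions on the rational places of a field -/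

section places

variable (k F : Type u) [Field k] [IsAlgClosed k] [Good k] [Field F] [Algebra k F]

/-- A harmonic function on the rational places of `F`: it comes from a function on a projective model which kills
the cycles rationally equivalent to zero. -/
def HF (u : RPl k F → ℂ) : Prop :=
  ∃ (M : ℕ) (ξ : Fin M → F) (hξ : ξ ≠ 0) (φ : (proj k (van k ξ)).Pt → ℂ),
    Kills (proj k (van k ξ)) φ ∧ ∀ w, u w = φ (evP ξ hξ w)

/-- A function on the rational places of `F` which vanishes on Albanese trivial combinations. -/
def Tv (g : RPl k F → ℂ) : Prop :=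
  ∀ a : RPl k F →₀ ℤ, AJ k F a → Finsupp.linearCombination ℤ g a = 0

end places

/-! ### The surface of pairs -/

/-- The function field `F = k (τ, s, t)` of a surface fibred over the `τ`-line by plane cubics depending only on
`τ²`. -/
structure CD (k F : Type u) [Field k] [Field F] [Algebra k F] where
  τ : F
  s : F
  t : F
  ι : F ≃ₐ[k] F
  c : Fin 10 → k[X]
  ind : AlgebraicIndependent k ![τ, s]
  gen : IntermediateField.adjoin k {τ, s, t} = ⊤
  ιτ : ι τ = - τ
  ιs : ι s = s
  ιt : ι t = t
  eqn : cub (fun i => aeval (τ ^ 2) (c i)) s t = 0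
  c0 : c 0 ≠ 0
  bin : Dbin c ≠ 0
  dsc : Dsc c ≠ 0

/-- Voisin's property for `n > p` (cycles of degree zero) for all elliptic surfaces
`y² = x³ + A (l) x + B (l)`. -/
def EllVP (k : Type u) [Field k] [IsAlgClosed k] [Good k] (A B : k[X]) (p : ℕ) : Prop :=
  ∀ (E : Type u) [Field E] [Algebra k E] (l x y : E), AlgebraicIndependent k ![l, x] →
    y ^ 2 = x ^ 3 + aeval l A * x + aeval l B → IntermediateField.adjoin k {l, x, y} = ⊤ → VP k E p

end Pool.Agent.Helper15.KP

end CX
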