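import Mathlib
import Pool.Agent.Helper40.CX.H15GT.Aut
import Pool.Agent.Helper40.CX.H21TO.Final
import Pool.Agent.Helper40.CX.H83VN.Wei
import Pool.Agent.Helper40.CX.CHI.Eqn
import Pool.Agent.Helper98.CHC.Min

/-!
# Voisin's property for elliptic surfaces over the projective line with `N = 1` or `N = 2`

`vp_wei`: the function field of the surface with a minimal Weierstrass equation given by binary
forms; `vp_ell`: the same for an equation `y ^ 2 = x ^ 3 + A(l) * x + B(l)`, with polynomials `A`,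
`B`, minimal over the affine line.
-/

set_option autoImplicit false
set_option linter.unusedSectionVars false

namespace CX.KPE

open CX.VC CX.CHI CX.CHC CX.Pool.Agent.Helper21.TO CX.Pool.Agent.Helper15.GT Polynomial
open CX.Pool.Agent.Helper51.EW (Wei)

section

variable {k E : Type} [Field k] [IsAlgClosed k] [Good k] [Field E] [Algebra k E]

theorem vp_wei {W : Wei k} (h1 : 1 ≤ W.N) (h2 : W.N ≤ 2) (hΔ : 4 * W.A ^ 3 + 27 * W.B ^ 2 ≠ 0)
    (hmin : Minimal W) {l x y : E} (hxl : AlgebraicIndependent k ![x, l])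
    (he : y ^ 2 = x ^ 3 + MvPolynomial.aeval ![1, l] W.A * x + MvPolynomial.aeval ![1, l] W.B)
    (hgen : IntermediateField.adjoin k {x, y, l} = ⊤) : VP k E 1 := by
  obtain ⟨L, E', _, _, _, _, _, _, T, w0, f, σ₀, hw, hf, -⟩ :=
    triv_data (m := 1) (W := W) (by rw [Nat.cast_one]; exact one_ne_zero) hΔ hxl
      (by rw [pow_one]; exact he) hgen (ζ := 1) (one_pow 1) AlgEquiv.refl rfl rfl
      (by rw [map_one, one_mul]; rfl)
  rw [pow_one] at hw
  intro M ξ hξ n hn
  rw [← van_hom f ξ]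
  refine voisin_torsor hΔ hmin T (fun i => f (ξ i)) ?_ ?_ ?_
  · intro h0
    apply hξ
    funext i
    exact (map_eq_zero_iff f f.toRingHom.injective).mp (congrFun h0 i)
  · intro σ hσ i
    exact hf (ξ i) σ hσ (by rw [hw]; exact T.fixt σ hσ)
  · exact Pool.Agent.Helper83.VN.voisin_wei h1 (by omega) hΔ

end

section

variable {k : Type} [Field k]

/-- The minimal Weierstrass equation with given coefficients over the affine line. -/
theorem exists_modelN {f g : k[X]} (h : ∀ τ : k, ¬ ((X - C τ) ^ 4 ∣ f ∧ (X - C τ) ^ 6 ∣ g)) :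
    ∃ V : Wei k, MvPolynomial.aeval (![1, X] : Fin 2 → k[X]) V.A = f ∧
      MvPolynomial.aeval (![1, X] : Fin 2 → k[X]) V.B = g ∧ Minimal V ∧
      (f.natDegree ≤ 4 * V.N ∧ g.natDegree ≤ 6 * V.N) ∧
      ∀ m < V.N, ¬ (f.natDegree ≤ 4 * m ∧ g.natDegree ≤ 6 * m) := by
  classical
  obtain ⟨N, ⟨hf, hg⟩, hmin⟩ : ∃ N : ℕ, (f.natDegree ≤ 4 * N ∧ g.natDegree ≤ 6 * N) ∧
      ∀ m < N, ¬ (f.natDegree ≤ 4 * m ∧ g.natDegree ≤ 6 * m) := by
    have hex : ∃ N : ℕ, f.natDegree ≤ 4 * N ∧ g.natDegree ≤ 6 * N :=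
      ⟨f.natDegree + g.natDegree, by omega, by omega⟩
    exact ⟨Nat.find hex, Nat.find_spec hex, fun m hm => Nat.find_min hex hm⟩
  refine ⟨⟨N, form (4 * N) f, form (6 * N) g, form_hom _ _, form_hom _ _⟩, aeval_form hf,
    aeval_form hg, ?_, ⟨hf, hg⟩, hmin⟩
  intro l hl hl0 ⟨hlA, hlB⟩
  change l ^ 4 ∣ form (4 * N) f at hlA
  change l ^ 6 ∣ form (6 * N) g at hlB
  obtain ⟨z, hz, hlz⟩ := _root_.Pool.Agent.Helper9.CHI.exists_root hl
  rcases eq_or_ne (z 0) 0 with hz0 | hz0
  · have hz1 : z 1 ≠ 0 := by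
      intro h1
      apply hz
      funext i
      fin_cases i
      · exact hz0
      · exact h1
    have hl1 : MvPolynomial.eval (![0, 1] : Fin 2 → k) l = 0 := by
      have e : z = fun i => z 1 * (![0, 1] : Fin 2 → k) i := by
        funext i
        fin_cases i
        · change z 0 = z 1 * 0
          rw [hz0, mul_zero]
        · change z 1 = z 1 * 1
          rw [mul_one]
      rw [e, scale_eval hl, pow_one] at hlz
      exact (mul_eq_zero.mp hlz).resolve_left hz1
    have hXl : (X : k[X]) ∣ MvPolynomial.aeval (![X, 1] : Fin 2 → k[X]) l := by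
      have e : (fun i => ((![X, 1] : Fin 2 → k[X]) i).eval 0) = ![0, 1] := by
        funext i
        fin_cases i
        · change (X : k[X]).eval 0 = 0
          exact eval_X
        · change (1 : k[X]).eval 0 = 1
          exact eval_one
      rw [X_dvd_iff, coeff_zero_eq_eval_zero, eval_aeval, e, hl1]
    have hA4 := dvd_aeval hlA _ hXl
    have hB6 := dvd_aeval hlB _ hXl
    rcases Nat.eq_zero_or_pos N with hN | hN
    · subst hN
      have hf0 : f = 0 := const_zero (e := 4) (by norm_num) hf hA4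
      have hg0 : g = 0 := const_zero (e := 6) (by norm_num) hg hB6
      apply h 0
      rw [hf0, hg0]
      exact ⟨dvd_zero _, dvd_zero _⟩
    · apply hmin (N - 1) (by omega)
      have h4 := degree_of_dvd hf (by omega) hA4
      have h6 := degree_of_dvd hg (by omega) hB6
      constructor <;> omega
  · apply h (z 1 / z 0)
    have hdl : (X - C (z 1 / z 0)) ∣ MvPolynomial.aeval (![1, X] : Fin 2 → k[X]) l := by
      rw [dvd_iff_isRoot, IsRoot, eval_aeval]
      have e : (fun i => ((![1, X] : Fin 2 → k[X]) i).eval (z 1 / z 0)) =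
          fun i => (z 0)⁻¹ * z i := by
        funext i
        fin_cases i
        · change (1 : k[X]).eval _ = (z 0)⁻¹ * z 0
          rw [eval_one, inv_mul_cancel₀ hz0]
        · change (X : k[X]).eval _ = (z 0)⁻¹ * z 1
          rw [eval_X, div_eq_inv_mul]
      rw [e, scale_eval hl, hlz, mul_zero]
    have h4 := dvd_aeval hlA _ hdl
    have h6 := dvd_aeval hlB _ hdl
    rw [aeval_form hf] at h4
    rw [aeval_form hg] at h6
    exact ⟨h4, h6⟩

end

section

variable {k E : Type} [Field k] [IsAlgClosed k] [Good k] [Field E] [Algebra k E]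

/-- Voisin's property for `y ^ 2 = x ^ 3 + A(l) * x + B(l)`, `deg A ≤ 8`, `deg B ≤ 12`, not both
constant, where for no `c` both `(l - c) ^ 4 ∣ A` and `(l - c) ^ 6 ∣ B`. -/
theorem vp_ell {A B : k[X]} (hA : A.natDegree ≤ 8) (hB : B.natDegree ≤ 12)
    (hc : A.natDegree ≠ 0 ∨ B.natDegree ≠ 0)
    (hmin : ∀ c : k, ¬ ((X - C c) ^ 4 ∣ A ∧ (X - C c) ^ 6 ∣ B)) (hd : 4 * A ^ 3 + 27 * B ^ 2 ≠ 0)
    {l x y : E} (hlx : AlgebraicIndependent k ![l, x])
    (he : y ^ 2 = x ^ 3 + aeval l A * x + aeval l B)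
    (hgen : IntermediateField.adjoin k {l, x, y} = ⊤) : VP k E 1 := by
  obtain ⟨V, hVA, hVB, hV, ⟨hf, hg⟩, hN⟩ := exists_modelN hmin
  have hev : ∀ P : MvPolynomial (Fin 2) k, aeval l
      (MvPolynomial.aeval (![1, X] : Fin 2 → k[X]) P) = MvPolynomial.aeval ![1, l] P := by
    intro P
    rw [aeval_poly (K := E) P X l, aeval_X]
  have h1 : 1 ≤ V.N := by
    by_contra h0
    have h2 : V.N = 0 := by omega
    rw [h2] at hf hg
    rcases hc with h | h <;> omega
  have h2 : V.N ≤ 2 := by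
    by_contra h0
    exact hN 2 (by omega) ⟨by omega, by omega⟩
  refine vp_wei h1 h2 ?_ hV (l := l) (x := x) (y := y) ?_ ?_ ?_
  · intro h0
    apply hd
    have h3 := congrArg (MvPolynomial.aeval (![1, X] : Fin 2 → k[X])) h0
    rw [map_add, map_mul, map_mul, map_pow, map_pow, hVA, hVB, map_ofNat, map_ofNat,
      map_zero] at h3
    exact h3
  · have h3 := hlx.comp (Equiv.swap (0 : Fin 2) 1) (Equiv.swap (0 : Fin 2) 1).injective
    have h4 : (![l, x] : Fin 2 → E) ∘ (Equiv.swap (0 : Fin 2) 1) = ![x, l] := by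
      funext i
      fin_cases i <;> rfl
    rwa [h4] at h3
  · rw [← hev, ← hev, hVA, hVB]
    exact he
  · rw [← hgen]
    congr 1
    ext z
    simp only [Set.mem_insert_iff, Set.mem_singleton_iff]
    tauto

end

end CX.KPE
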