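import Mathlib
import Pool.Agent.Helper40.CX.H15KP.EllVP
import Pool.Agent.Helper40.CX.H15KP.Defs
import Pool.Agent.Helper43.CH.Model

/-!
# Voisin's property for elliptic surfaces over the projective line: no minimality

`vp_ell'`: `y ^ 2 = x ^ 3 + A(l) * x + B(l)`, `deg A ≤ 8`, `deg B ≤ 12`, the `j`-invariant is not
constant. `ellVP`: the same with the coefficients `27 l ^ 4 A(l)`, `54 l ^ 6 B(l)`.
-/

set_option autoImplicit false
set_option linter.unusedSectionVars false

namespace CX.KPE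

open CX.VC CX.Pool.Agent.Helper21.TO CX.Pool.Agent.Helper15.GT CX.Pool.Agent.Helper15.KP
open Polynomial

variable {k E : Type} [Field k] [IsAlgClosed k] [Good k] [Field E] [Algebra k E]

theorem disc_of_indep {A B : k[X]}
    (hj : ∀ c d : k, C c * A ^ 3 = C d * B ^ 2 → c = 0 ∧ d = 0) : 4 * A ^ 3 + 27 * B ^ 2 ≠ 0 := by
  intro h0
  have e4 : (C 4 : k[X]) = 4 := map_ofNat C 4
  have e27 : (C 27 : k[X]) = 27 := map_ofNat C 27
  have h1 := (hj 4 (-27) (by
    rw [C_neg, e4, e27]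
    linear_combination h0)).1
  exact Good.n4 h1

open IntermediateField in
/-- Scaling of the coordinates of a Weierstrass equation. -/
theorem scale {a b v l x y : E} (hlx : AlgebraicIndependent k ![l, x])
    (hgen : IntermediateField.adjoin k {l, x, y} = ⊤) (hv : v ∈ adjoin k {l}) (hv0 : v ≠ 0)
    (ha : a ∈ adjoin k {l}) (hb : b ∈ adjoin k {l})
    (he : y ^ 2 = x ^ 3 + v ^ 4 * a * x + v ^ 6 * b) :
    AlgebraicIndependent k ![l, x / v ^ 2] ∧
      (y / v ^ 3) ^ 2 = (x / v ^ 2) ^ 3 + a * (x / v ^ 2) + b ∧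
      adjoin k {l, x / v ^ 2, y / v ^ 3} = ⊤ := by
  refine ⟨?_, ?_, ?_⟩
  · refine _root_.Pool.Agent.Helper43.CH.indep_of_algebraic hlx hgen ?_
    have hr : Set.range ![l, x / v ^ 2] = {l, x / v ^ 2} := by
      ext z
      simp only [Matrix.range_cons, Matrix.range_empty, Set.union_empty, Set.mem_insert_iff,
        Set.mem_union, Set.mem_singleton_iff]
    rw [hr]
    have m1 : l ∈ adjoin k {l, x / v ^ 2} := subset_adjoin _ _ (by simp)
    have hle : adjoin k {l} ≤ adjoin k {l, x / v ^ 2} := by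
      rw [adjoin_simple_le_iff]
      exact m1
    have m2 : x ∈ adjoin k {l, x / v ^ 2} := by
      have h1 : x / v ^ 2 ∈ adjoin k {l, x / v ^ 2} := subset_adjoin _ _ (by simp)
      have h2 := mul_mem h1 (pow_mem (hle hv) 2)
      rwa [div_mul_cancel₀ _ (pow_ne_zero 2 hv0)] at h2
    have halg : ∀ z ∈ adjoin k {l, x / v ^ 2}, IsAlgebraic (adjoin k {l, x / v ^ 2}) z :=
      fun z hz => isAlgebraic_algebraMap (⟨z, hz⟩ : adjoin k {l, x / v ^ 2})
    rintro z (rfl | rfl | rfl)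
    · exact halg _ m1
    · exact halg _ m2
    · apply IsAlgebraic.of_pow (n := 2) (by norm_num)
      rw [he]
      exact halg _ (add_mem (add_mem (pow_mem m2 3) (mul_mem (mul_mem (pow_mem (hle hv) 4)
        (hle ha)) m2)) (mul_mem (pow_mem (hle hv) 6) (hle hb)))
  · field_simp
    linear_combination he
  · rw [eq_top_iff, ← hgen, adjoin_le_iff]
    have m1 : l ∈ adjoin k {l, x / v ^ 2, y / v ^ 3} := subset_adjoin _ _ (by simp)
    have hle : adjoin k {l} ≤ adjoin k {l, x / v ^ 2, y / v ^ 3} := by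
      rw [adjoin_simple_le_iff]
      exact m1
    rintro z (rfl | rfl | rfl)
    · exact m1
    · have h1 : z / v ^ 2 ∈ adjoin k {l, z / v ^ 2, y / v ^ 3} := subset_adjoin _ _ (by simp)
      have h2 := mul_mem h1 (pow_mem (hle hv) 2)
      rwa [div_mul_cancel₀ _ (pow_ne_zero 2 hv0)] at h2
    · have h1 : z / v ^ 3 ∈ adjoin k {l, x / v ^ 2, z / v ^ 3} := subset_adjoin _ _ (by simp)
      have h2 := mul_mem h1 (pow_mem (hle hv) 3)
      rwa [div_mul_cancel₀ _ (pow_ne_zero 3 hv0)] at h2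

theorem aeval_mem (l : E) (P : k[X]) : aeval l P ∈ IntermediateField.adjoin k {l} :=
  IntermediateField.algebra_adjoin_le_adjoin k {l} (aeval_mem_adjoin_singleton k l)

/-- Voisin's property for `y ^ 2 = x ^ 3 + A(l) * x + B(l)`, `deg A ≤ 8`, `deg B ≤ 12`, if `A ^ 3` and
`B ^ 2` are linearly independent. -/
theorem vp_ell' {A B : k[X]} (hA : A.natDegree ≤ 8) (hB : B.natDegree ≤ 12)
    (hj : ∀ c d : k, C c * A ^ 3 = C d * B ^ 2 → c = 0 ∧ d = 0)
    {l x y : E} (hlx : AlgebraicIndependent k ![l, x])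
    (he : y ^ 2 = x ^ 3 + aeval l A * x + aeval l B)
    (hgen : IntermediateField.adjoin k {l, x, y} = ⊤) : VP k E 1 := by
  obtain ⟨n, hn⟩ : ∃ n, A.natDegree = n := ⟨_, rfl⟩
  induction n using Nat.strong_induction_on generalizing A B x y with
  | _ n ih =>
  by_cases hmin : ∀ c : k, ¬ ((X - C c) ^ 4 ∣ A ∧ (X - C c) ^ 6 ∣ B)
  · refine vp_ell hA hB ?_ hmin (disc_of_indep hj) hlx he hgen
    by_contra hcon
    push Not at hcon
    obtain ⟨a, ha⟩ := natDegree_eq_zero.mp hcon.1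
    obtain ⟨b, hb⟩ := natDegree_eq_zero.mp hcon.2
    have h1 := hj (b ^ 2) (a ^ 3) (by
      rw [← ha, ← hb, ← C_pow, ← C_pow, ← C_mul, ← C_mul, mul_comm])
    have h2 : A = 0 := by
      rw [← ha, pow_eq_zero_iff (by norm_num) |>.mp h1.2, C_0]
    have h3 := (hj 1 0 (by rw [h2, C_0]; ring)).1
    exact one_ne_zero h3
  · push Not at hmin
    obtain ⟨c, ⟨A', hA'⟩, ⟨B', hB'⟩⟩ := hmin
    have hX : (X - C c : k[X]) ≠ 0 := X_sub_C_ne_zero c
    have hA0' : A' ≠ 0 := by
      rintro rfl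
      rw [mul_zero] at hA'
      subst hA'
      exact one_ne_zero (hj 1 0 (by rw [C_0]; ring)).1
    have hB0' : B' ≠ 0 := by
      rintro rfl
      rw [mul_zero] at hB'
      subst hB'
      exact one_ne_zero (hj 0 1 (by rw [C_0]; ring)).2
    have hdA : A.natDegree = 4 + A'.natDegree := by
      rw [hA', natDegree_mul (pow_ne_zero _ hX) hA0', natDegree_pow, natDegree_X_sub_C, mul_one]
    have hdB : B.natDegree = 6 + B'.natDegree := by
      rw [hB', natDegree_mul (pow_ne_zero _ hX) hB0', natDegree_pow, natDegree_X_sub_C, mul_one]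
    have hl : Transcendental k l := hlx.transcendental 0
    have hv0 : aeval l (X - C c : k[X]) ≠ 0 := fun h => hl ⟨_, hX, h⟩
    obtain ⟨h1, h2, h3⟩ := scale hlx hgen (aeval_mem l (X - C c : k[X])) hv0 (aeval_mem l A')
      (aeval_mem l B') (by rw [he, hA', hB', map_mul, map_mul, map_pow, map_pow])
    refine ih A'.natDegree (by omega) (by omega) (by omega) ?_ h1 h2 h3 rfl
    intro c' d' h
    apply hj c' d'
    rw [hA', hB']
    linear_combination (X - C c) ^ 12 * h

theorem ellVP (A B : k[X]) (hA : A.natDegree ≤ 8) (hB : B.natDegree ≤ 12)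
    (hj : ∀ c d : k, C c * A ^ 3 = C d * B ^ 2 → c = 0 ∧ d = 0) :
    EllVP k (27 * X ^ 4 * A) (54 * X ^ 6 * B) 1 := by
  intro E _ _ l x y hlx he hgen
  have hl : Transcendental k l := hlx.transcendental 0
  have hl0 : l ≠ 0 := by
    rintro rfl
    exact hl isAlgebraic_zero
  have e27 : (C 27 : k[X]) = 27 := map_ofNat C 27
  have e54 : (C 54 : k[X]) = 54 := map_ofNat C 54
  obtain ⟨h1, h2, h3⟩ := scale hlx hgen (IntermediateField.mem_adjoin_simple_self k l) hl0
    (aeval_mem l (C 27 * A)) (aeval_mem l (C 54 * B)) (by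
      rw [he]
      simp only [map_mul, map_pow, aeval_X, map_ofNat]
      ring)
  refine vp_ell' ((natDegree_C_mul_le _ _).trans hA) ((natDegree_C_mul_le _ _).trans hB) ?_ h1 h2 h3
  intro c d h
  obtain ⟨h4, h5⟩ := hj (c * 27 ^ 3) (d * 54 ^ 2) (by
    rw [C_mul, C_mul, C_pow, C_pow]
    linear_combination h)
  exact ⟨(mul_eq_zero.mp h4).resolve_right (pow_ne_zero 3 Good.n27),
    (mul_eq_zero.mp h5).resolve_right (pow_ne_zero 2 Good.n54)⟩

end CX.KPE
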