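import Mathlib
import Pool.Agent.Helper40.CX.H15KP.EllVP2

/-!
# Rational elliptic surfaces

`vp_ell0`: the property of Voisin for all `n ≥ 1` for `y ^ 2 = x ^ 3 + A(l) * x + B(l)`, `deg A ≤ 4`,
`deg B ≤ 6`, which is not isomorphic to a product.
-/

set_option autoImplicit false
set_option linter.unusedSectionVars false

namespace CX.KPE

open CX.VC CX.CHI CX.CHC CX.Pool.Agent.Helper21.TO CX.Pool.Agent.Helper15.GT Polynomial
open CX.Pool.Agent.Helper51.EW (Wei)

variable {k E : Type} [Field k] [IsAlgClosed k] [Good k] [Field E] [Algebra k E]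

theorem vp_wei0 {W : Wei k} (h1 : W.N = 1) (hΔ : 4 * W.A ^ 3 + 27 * W.B ^ 2 ≠ 0)
    (hmin : Minimal W) {l x y : E} (hxl : AlgebraicIndependent k ![x, l])
    (he : y ^ 2 = x ^ 3 + MvPolynomial.aeval ![1, l] W.A * x + MvPolynomial.aeval ![1, l] W.B)
    (hgen : IntermediateField.adjoin k {x, y, l} = ⊤) : VP k E 0 := by
  obtain ⟨L, E', _, _, _, _, _, _, T, w0, f, σ₀, hw, hf, -⟩ :=
    triv_data (m := 1) (W := W) (by rw [Nat.cast_one]; exact one_ne_zero) hΔ hxl
      (by rw [pow_one]; exact he) hgen (ζ := 1) (one_pow 1) AlgEquiv.refl rfl rfl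
      (by rw [map_one, one_mul]; rfl)
  rw [pow_one] at hw
  intro M ξ hξ n hn
  rw [← van_hom f ξ]
  refine voisin_torsor hΔ hmin T (fun i => f (ξ i)) ?_ ?_ ?_
  · intro h0
    apply hξ
    funext i
    exact (map_eq_zero_iff f f.toRingHom.injective).mp (congrFun h0 i)
  · intro σ hσ i
    exact hf (ξ i) σ hσ (by rw [hw]; exact T.fixt σ hσ)
  · exact Pool.Agent.Helper83.VN.voisin_wei (by omega) (by omega) hΔ

theorem vp_min0 {A B : k[X]} (hA : A.natDegree ≤ 4) (hB : B.natDegree ≤ 6)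
    (hc : A.natDegree ≠ 0 ∨ B.natDegree ≠ 0)
    (hmin : ∀ c : k, ¬ ((X - C c) ^ 4 ∣ A ∧ (X - C c) ^ 6 ∣ B)) (hd : 4 * A ^ 3 + 27 * B ^ 2 ≠ 0)
    {l x y : E} (hlx : AlgebraicIndependent k ![l, x])
    (he : y ^ 2 = x ^ 3 + aeval l A * x + aeval l B)
    (hgen : IntermediateField.adjoin k {l, x, y} = ⊤) : VP k E 0 := by
  obtain ⟨V, hVA, hVB, hV, ⟨hf, hg⟩, hN⟩ := exists_modelN hmin
  have hev : ∀ P : MvPolynomial (Fin 2) k, aeval l
      (MvPolynomial.aeval (![1, X] : Fin 2 → k[X]) P) = MvPolynomial.aeval ![1, l] P := by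
    intro P
    rw [aeval_poly (K := E) P X l, aeval_X]
  have h1 : V.N = 1 := by
    have h1 : 1 ≤ V.N := by
      by_contra h0
      have h2 : V.N = 0 := by omega
      rw [h2] at hf hg
      rcases hc with h | h <;> omega
    have h2 : V.N ≤ 1 := by
      by_contra h0
      exact hN 1 (by omega) ⟨by omega, by omega⟩
    omega
  refine vp_wei0 h1 ?_ hV (l := l) (x := x) (y := y) ?_ ?_ ?_
  · intro h0
    apply hd
    have h3 := congrArg (MvPolynomial.aeval (![1, X] : Fin 2 → k[X])) h0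
    rw [map_add, map_mul, map_mul, map_pow, map_pow, hVA, hVB, map_ofNat, map_ofNat,
      map_zero] at h3
    exact h3
  · have h3 := hlx.comp (Equiv.swap (0 : Fin 2) 1) (Equiv.swap (0 : Fin 2) 1).injective
    have h4 : (![l, x] : Fin 2 → E) ∘ (Equiv.swap (0 : Fin 2) 1) = ![x, l] := by
      funext i
      fin_cases i <;> rfl
    rwa [h4] at h3
  · rw [← hev, ← hev, hVA, hVB]
    exact he
  · rw [← hgen]
    congr 1
    ext z
    simp only [Set.mem_insert_iff, Set.mem_singleton_iff]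
    tauto

/-- Voisin's property for rational elliptic surfaces. -/
theorem vp_ell0 {A B : k[X]} (hA : A.natDegree ≤ 4) (hB : B.natDegree ≤ 6)
    (hd : 4 * A ^ 3 + 27 * B ^ 2 ≠ 0)
    (hc : ∀ (U : k[X]) (α β : k), U.natDegree ≤ 1 → A = C α * U ^ 4 → B = C β * U ^ 6 → False)
    {l x y : E} (hlx : AlgebraicIndependent k ![l, x])
    (he : y ^ 2 = x ^ 3 + aeval l A * x + aeval l B)
    (hgen : IntermediateField.adjoin k {l, x, y} = ⊤) : VP k E 0 := by
  have hdeg : ∀ (P Q : k[X]) (c : k) (n : ℕ), P.natDegree ≤ n → P = (X - C c) ^ n * Q →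
      ∃ α, P = C α * (X - C c) ^ n := by
    intro P Q c n hP hPQ
    by_cases hQ : Q = 0
    · exact ⟨0, by rw [hPQ, hQ, C_0]; ring⟩
    · have h1 : P.natDegree = n + Q.natDegree := by
        rw [hPQ, natDegree_mul (pow_ne_zero _ (X_sub_C_ne_zero c)) hQ, natDegree_pow,
          natDegree_X_sub_C, mul_one]
      obtain ⟨α, hα⟩ := natDegree_eq_zero.mp (show Q.natDegree = 0 by omega)
      exact ⟨α, by rw [hPQ, ← hα, mul_comm]⟩
  refine vp_min0 hA hB ?_ ?_ hd hlx he hgen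
  · by_contra hcon
    push Not at hcon
    obtain ⟨a, ha⟩ := natDegree_eq_zero.mp hcon.1
    obtain ⟨b, hb⟩ := natDegree_eq_zero.mp hcon.2
    exact hc 1 a b (by simp) (by rw [← ha]; ring) (by rw [← hb]; ring)
  · rintro c ⟨⟨A', hA'⟩, ⟨B', hB'⟩⟩
    obtain ⟨α, hα⟩ := hdeg A A' c 4 hA hA'
    obtain ⟨β, hβ⟩ := hdeg B B' c 6 hB hB'
    exact hc (X - C c) α β (natDegree_X_sub_C c).le hα hβ

end CX.KPE
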