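import Mathlib
import Pool.Agent.Helper9.NS
import Pool.Agent.Helper40.CX.H15KP.Defs
import Pool.Agent.Helper40.CX.H15GT.RZev
import Pool.Agent.Helper40.CX.H15GT.Lift
import Pool.Agent.Helper40.CX.H15GT.Dec
import Pool.Agent.Helper40.CX.Good2

namespace CX

/-!
# KP: the correspondence given by a finite family of embeddings
-/

set_option linter.unusedSectionVars false

namespace Pool.Agent.Helper15.KP

open VC VF Function Polynomial Pool.Agent.Helper21.TO Pool.Agent.Helper15.GT

universe u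

variable {k : Type u} [Field k] [IsAlgClosed k] [Good k] {F N E : Type u} [Field F] [Algebra k F]
  [Field N] [Algebra k N] [Field E] [Algebra k E]

/-- The vector with the values of the product of the linear forms `f j (ξ)`, with coordinates in the
subfield `E` of `N`. -/
theorem exists_fam {ι : Type u} [Fintype ι] [Nonempty ι] (f : ι → F →ₐ[k] N) (e : E →ₐ[k] N) {M : ℕ} (ξ : Fin M → F)
    (hξ : ξ ≠ 0) (hr : ∀ l, nm k (Fintype.card ι) (fun j i => f j (ξ i)) l ∈ Set.range e) :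
    ∃ (η : Fin ((Fintype.card ι + 1) ^ M) → E) (hη : η ≠ 0),
      Cor (proj k (van k η)) (proj k (van k ξ)) (Zc ι (van k ξ) (Fintype.card ι)) ∧
      ∀ w : RPl k N, Zc ι (van k ξ) (Fintype.card ι) (evP η hη (w.comap e)) =
        ∑ j, Finsupp.single (evP ξ hξ (w.comap (f j))) 1 := by
  classical
  have hinf : Infinite k := IsAlgClosed.instInfinite
  choose η he using hr
  have hne : ∀ j, (fun i => f j (ξ i)) ≠ 0 := by
    intro j h0
    apply hξ
    funext i
    exact (map_eq_zero_iff (f j) (f j).toRingHom.injective).mp (congrFun h0 i)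
  have hη : η ≠ 0 := by
    intro h0
    apply nm_ne_zero (k := k) le_rfl (fun j i => f j (ξ i)) hne
    funext l
    rw [← he l, h0]
    exact map_zero e
  have hvan : van k η = van k (nm k (Fintype.card ι) (fun j i => f j (ξ i))) := by
    rw [← van_hom e η]
    congr 1
    funext l
    exact he l
  refine ⟨η, hη, ?_, fun w => ?_⟩
  · rw [hvan]
    refine cor_Zc le_rfl (van k ξ) (fun j i => f j (ξ i)) fun j => ?_
    intro P hP n hn
    have h2 : P ∈ van k (fun i' => f j (ξ i')) := by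
      rw [van_hom]
      exact hP
    exact h2
  · choose b hb hs hv he' using fun j => exists_evP ξ hξ (w.comap (f j))
    have h1 : Vl w (nm k (Fintype.card ι) (fun j i => f j (ξ i))) (nm k (Fintype.card ι) b) :=
      vl_nm le_rfl fun j => (hv j).comap
    have h2 : nm k (Fintype.card ι) (fun j i => f j (ξ i)) = fun l => e (η l) := funext fun l => (he l).symm
    rw [h2] at h1
    have h5 := Vl.comap' hη h1
    rw [evP_eq hη h5 h5.1 h5.sat, Zc_eq le_rfl (van k ξ) h5.1 h5.sat
      (z := b) ⟨hb, 1, one_ne_zero, fun l => (one_mul _).symm⟩]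
    refine Finset.sum_congr rfl fun j _ => ?_
    rw [he' j]
    unfold cy
    rw [dif_pos ⟨hb j, hs j⟩]

/-- The coordinates of the norm vector are in the fixed field of a group which permutes the embeddings. -/
lemma nm_mem_of_perm {ι : Type*} [Fintype ι] (f : ι → F →ₐ[k] N) (e : E →ₐ[k] N) (H : Set (N ≃ₐ[k] N))
    (he : ∀ z : N, (∀ σ ∈ H, σ z = z) → z ∈ Set.range e)
    (hp : ∀ σ ∈ H, ∃ π : Equiv.Perm ι, ∀ j x, σ (f j x) = f (π j) x) {M : ℕ} (ξ : Fin M → F) {d : ℕ}
    (l : Fin ((d + 1) ^ M)) : nm k d (fun j i => f j (ξ i)) l ∈ Set.range e := by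
  refine he _ fun σ hσ => ?_
  obtain ⟨π, hπ⟩ := hp σ hσ
  have h1 := nm_map (k := k) (d := d) (σ : N →+* N) (fun c => σ.commutes c) (fun j i => f j (ξ i)) l
  have h2 : (fun j i => (σ : N →+* N) (f j (ξ i))) = fun j => (fun j i => f j (ξ i)) (π j) := by
    funext j i
    exact hπ j (ξ i)
  rw [h2] at h1
  have h3 := congrFun (nm_perm (k := k) (d := d) π (fun j i => f j (ξ i))) l
  rw [h3] at h1
  exact h1.symm

/-- A correspondence pulls back functionals which kill the cycles rationally equivalent to zero. -/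
theorem kills_cor {X S : Variety k} (_hS : HasConst S) {Z : X.Pt → S.Cycles} (hZ : Cor X S Z) {φ : S.Pt → ℂ}
    (hφ : Kills S φ) : Kills X (fun y => Finsupp.linearCombination ℤ φ (Z y)) := by
  classical
  apply kills_of_gen
  intro K _ _ hK c f hf
  obtain ⟨K', iF', iA', iAK, iT, hK', hfam⟩ := hZ K hK 1 (fun _ => c)
  have hf' : algebraMap K K' f ≠ 0 := (_root_.map_ne_zero _).mpr hf
  refine Pool.Agent.Helper83.QF.kills_res hK hK' (fun v => Finsupp.linearCombination ℤ φ (Z (X.eval hK c v))) hf hf' ?_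
  obtain ⟨r, P, e, hz⟩ := hfam 0
  have h1 : ∀ w, Finsupp.linearCombination ℤ φ (Z (X.eval hK c (VQ.res hK hK' w))) =
      ∑ l, (e l : ℂ) * φ (S.eval hK' (P l) w) := by
    intro w
    have h0 := hz w
    beta_reduce at h0
    rw [h0, map_sum]
    refine Finset.sum_congr rfl fun l _ => ?_
    rw [Finsupp.linearCombination_single, zsmul_eq_mul]
  simp only [h1, Finset.mul_sum]
  rw [Finset.sum_comm]
  refine Finset.sum_eq_zero fun l _ => ?_
  have h2 := hφ.gen hK' (P l) hf'
  have h3 : ∑ w ∈ (finite_support_ord hK' hf').toFinset, (ord w.ring (algebraMap K K' f) : ℂ) *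
      ((e l : ℂ) * φ (S.eval hK' (P l) w)) = (e l : ℂ) * ∑ w ∈ (finite_support_ord hK' hf').toFinset,
      (ord w.ring (algebraMap K K' f) : ℂ) * φ (S.eval hK' (P l) w) := by
    rw [Finset.mul_sum]
    refine Finset.sum_congr rfl fun w _ => ?_
    ring
  rw [h3, h2, mul_zero]

/-- The sum of a harmonic function over a finite family of embeddings. -/
theorem HF.fam {ι : Type u} [Fintype ι] [Nonempty ι] (f : ι → F →ₐ[k] N) (e : E →ₐ[k] N) (H : Set (N ≃ₐ[k] N))
    (he : ∀ z : N, (∀ σ ∈ H, σ z = z) → z ∈ Set.range e)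
    (hp : ∀ σ ∈ H, ∃ π : Equiv.Perm ι, ∀ j x, σ (f j x) = f (π j) x) {u : RPl k F → ℂ} (hu : HF k F u) :
    ∃ u' : RPl k E → ℂ, HF k E u' ∧ ∀ w : RPl k N, u' (w.comap e) = ∑ j, u (w.comap (f j)) := by
  classical
  obtain ⟨M, ξ, hξ, φ, hφ, hu⟩ := hu
  obtain ⟨η, hη, hcor, hev⟩ := exists_fam f e ξ hξ (fun l => nm_mem_of_perm f e H he hp ξ l)
  refine ⟨fun w => Finsupp.linearCombination ℤ φ (Zc ι (van k ξ) (Fintype.card ι) (evP η hη w)),
    ⟨_, η, hη, _, kills_cor (fun K _ _ hK p => pconst K hK p) hcor hφ, fun w => rfl⟩, fun w => ?_⟩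
  beta_reduce
  rw [hev w, map_sum]
  refine Finset.sum_congr rfl fun j _ => ?_
  rw [Finsupp.linearCombination_single, one_smul, hu]

/-- The pullback of a harmonic function. -/
theorem HF.comap (f : F →ₐ[k] N) {u : RPl k F → ℂ} (h : HF k F u) : HF k N (fun w => u (w.comap f)) := by
  obtain ⟨u', hu', h1⟩ := HF.fam (ι := PUnit.{u+1}) (fun _ => f) (AlgHom.id k N) ∅ (fun z _ => ⟨z, rfl⟩)
    (fun σ hσ => absurd hσ (Set.notMem_empty σ)) h
  have e : (fun w : RPl k N => u (w.comap f)) = u' := by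
    funext w
    have h2 := h1 w
    have h3 : w.comap (AlgHom.id k N) = w := by
      ext z
      rfl
    rw [h3] at h2
    rw [h2]
    simp
  rw [e]
  exact hu'

theorem HF.smul {u : RPl k F → ℂ} (c : ℂ) (hu : HF k F u) : HF k F (fun w => c * u w) := by
  obtain ⟨M, ξ, hξ, φ, hφ, hu⟩ := hu
  exact ⟨M, ξ, hξ, _, hφ.smul c, fun w => by beta_reduce; rw [hu w]⟩

/-- The trace of a harmonic function to the fixed field of a finite group. -/
theorem HF.trace {G : Type u} [Group G] [Fintype G] (ρ : G →* (F ≃ₐ[k] F)) (e : E →ₐ[k] F)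
    (he : ∀ z : F, (∀ g, ρ g z = z) → z ∈ Set.range e) {u : RPl k F → ℂ} (hu : HF k F u) :
    ∃ u' : RPl k E → ℂ, HF k E u' ∧ ∀ w : RPl k F, u' (w.comap e) =
      ∑ g, u (w.comap ((ρ g : F ≃ₐ[k] F) : F →ₐ[k] F)) := by
  refine HF.fam (fun g => ((ρ g : F ≃ₐ[k] F) : F →ₐ[k] F)) e (Set.range ρ) (fun z hz => he z fun g => hz _ ⟨g, rfl⟩)
    (fun σ hσ => ?_) hu
  obtain ⟨g, rfl⟩ := hσ
  refine ⟨Equiv.mulLeft g, fun j x => ?_⟩
  change ρ g (ρ j x) = ρ (g * j) x
  rw [map_mul]
  rfl

end Pool.Agent.Helper15.KP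

end CX
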