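import Mathlib
import Pool.Agent.Helper9.NS
import Pool.Agent.Helper40.CX.H15KP.Defs2
import Pool.Agent.Helper40.CX.Good2

namespace CX

/-!
# KP: the main structures, general form
-/

set_option linter.unusedSectionVars false

namespace Pool.Agent.Helper15.KP

open VC VF Function Polynomial Pool.Agent.Helper21.TO Pool.Agent.Helper15.GT

universe u

/-- Step A, one slot: `Ω` is a Galois extension of `F` with the group `G`, and of the function field `k (l, x, y)` of an
elliptic surface with the group `Γ`; for every harmonic function `u` on the places of `F`, pull back to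
`Ω`, take the trace to `k (l, x, y)`, pull back to `Ω` and take the trace to `F`: up to a constant the result is
`card G * (np * u (w) - nm * u (ι w))`. -/
structure A1G {k F : Type u} [Field k] [IsAlgClosed k] [Good k] [Field F] [Algebra k F] (ι : F ≃ₐ[k] F)
    (A B : k[X]) (Ω : Type u) [Field Ω] [Algebra k Ω] (G Γ : Type u) [Group G] [Fintype G] [Group Γ] [Fintype Γ] where
  e : F →ₐ[k] Ω
  ρ : G →* (Ω ≃ₐ[k] Ω)
  fixF : ∀ z : Ω, (∀ g, ρ g z = z) → z ∈ Set.range e
  l : Ω
  x : Ω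
  y : Ω
  ind : AlgebraicIndependent k ![l, x]
  eqn : y ^ 2 = x ^ 3 + aeval l A * x + aeval l B
  ρ' : Γ →* (Ω ≃ₐ[k] Ω)
  fixE : ∀ z : Ω, (∀ g, ρ' g z = z) ↔ z ∈ IntermediateField.adjoin k {l, x, y}
  np : ℕ
  nm : ℕ
  hnp : 0 < np + nm
  main : ∀ u : RPl k F → ℂ, HF k F u → ∃ C : ℂ, ∀ w : RPl k Ω,
    ∑ h : G, ∑ g : Γ, u (((w.comap ((ρ h : Ω ≃ₐ[k] Ω) : Ω →ₐ[k] Ω)).comap
      ((ρ' g : Ω ≃ₐ[k] Ω) : Ω →ₐ[k] Ω)).comap e) =
      (Fintype.card G : ℂ) * ((np : ℂ) * u (w.comap e) -
        (nm : ℂ) * u ((w.comap e).comap ((ι : F ≃ₐ[k] F) : F →ₐ[k] F))) + C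

/-- The special case of the families of plane cubics. -/
def A1.toG {k F : Type u} [Field k] [IsAlgClosed k] [Good k] [Field F] [Algebra k F] {D : CD k F}
    {Ω : Type u} [Field Ω] [Algebra k Ω] {G Γ : Type u} [Group G] [Fintype G] [Group Γ] [Fintype Γ]
    (A : A1 D Ω G Γ) : A1G D.ι (27 * X ^ 2 * PS D.c) (54 * X ^ 3 * PT D.c) Ω G Γ where
  e := A.e
  ρ := A.ρ
  fixF := fun z h => (A.fixF z).mp h
  l := A.l
  x := A.x
  y := A.y
  ind := A.ind
  eqn := A.eqn
  ρ' := A.ρ'
  fixE := A.fixE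
  np := A.np
  nm := A.nm
  hnp := A.hnp
  main := A.main

/-- The field theory of a quartic extension `F` of `k (s, t)`: `N` is a Galois extension of `k (s, t)` with the group
`G`, there are four embeddings of `F` in `N`, `F6` is the fixed field of the stabilizer of the pair of the
embeddings `0, 1`, and `ι` is the involution of `F6` given by the exchange with the complementary pair. -/
structure QG (k F N F6 G : Type u) [Field k] [IsAlgClosed k] [Good k] [Field F] [Algebra k F]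
    [Field N] [Algebra k N] [Field F6] [Algebra k F6] [Group G] [Fintype G] (ι : F6 ≃ₐ[k] F6) where
  ρ : G →* (N ≃ₐ[k] N)
  e : Fin 4 → (F →ₐ[k] N)
  act : G →* Equiv.Perm (Fin 4)
  hact : ∀ g i x, ρ g (e i x) = e (act g i) x
  trans : ∀ i j, ∃ g, act g i = j
  /-- the base is rational -/
  s : N
  t : N
  ind : AlgebraicIndependent k ![s, t]
  base : ∀ z : N, (∀ g, ρ g z = z) ↔ z ∈ IntermediateField.adjoin k {s, t}
  fixF : ∀ z : N, (∀ g, act g 0 = 0 → ρ g z = z) → z ∈ Set.range (e 0)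
  e6 : F6 →ₐ[k] N
  fix6 : ∀ z : N, (∀ g, (act g 0 = 0 ∧ act g 1 = 1) ∨ (act g 0 = 1 ∧ act g 1 = 0) → ρ g z = z) ↔
    z ∈ Set.range e6
  gι : G
  hgι : (act gι 0 = 2 ∧ act gι 1 = 3) ∨ (act gι 0 = 3 ∧ act gι 1 = 2)
  hι : ∀ z, ρ gι (e6 z) = e6 (ι z)
  ιι : ∀ z, ι (ι z) = z
  /-- every pair `0, j` is either conjugate to the pair `0, 1` or the sum over the pair is constant -/
  pair : ∀ j : Fin 4, j ≠ 0 → (∃ g, (act g 0 = 0 ∧ act g 1 = j) ∨ (act g 0 = j ∧ act g 1 = 0)) ∨
    ∀ u : RPl k F → ℂ, HF k F u → ∃ C : ℂ, ∀ w : RPl k N, u (w.comap (e 0)) + u (w.comap (e j)) = C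

/-- The involution of the cubic data. -/
lemma CD.ι_ι {k F : Type u} [Field k] [Field F] [Algebra k F] (D : CD k F) (z : F) : D.ι (D.ι z) = z := by
  have h1 : ∀ z ∈ IntermediateField.adjoin k {D.τ, D.s, D.t}, D.ι (D.ι z) = z := by
    intro z hz
    induction hz using IntermediateField.adjoin_induction with
    | mem x hx =>
      rcases hx with rfl | rfl | rfl
      · rw [D.ιτ, map_neg, D.ιτ, neg_neg]
      · rw [D.ιs, D.ιs]
      · rw [D.ιt, D.ιt]
    | algebraMap x => rw [AlgEquiv.commutes, AlgEquiv.commutes]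
    | add x y _ _ hx hy => rw [map_add, map_add, hx, hy]
    | inv x _ hx => rw [map_inv₀, map_inv₀, hx]
    | mul x y _ _ hx hy => rw [map_mul, map_mul, hx, hy]
  exact h1 z (by rw [D.gen]; exact IntermediateField.mem_top)

/-- The special case of the families of plane cubics. -/
def QD.toG {k F N F6 G : Type u} [Field k] [IsAlgClosed k] [Good k] [Field F] [Algebra k F]
    [Field N] [Algebra k N] [Field F6] [Algebra k F6] [Group G] [Fintype G] (D : QD k F N F6 G) :
    QG k F N F6 G D.cd.ι where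
  ρ := D.ρ
  e := D.e
  act := D.act
  hact := D.hact
  trans := D.trans
  s := D.s
  t := D.t
  ind := D.ind
  base := D.base
  fixF := fun z h => (D.fixF z).mp h
  e6 := D.e6
  fix6 := D.fix6
  gι := D.gι
  hgι := D.hgι
  hι := D.hι
  ιι := D.cd.ι_ι
  pair := D.pair

/-! ### Families of quartics in one variable -/

section quartic

variable {R : Type*} [CommRing R]

/-- The first invariant of the quartic `e 4 s⁴ + e 3 s³ + e 2 s² + e 1 s + e 0`. -/
def QS (e : Fin 5 → R) : R := - (12 * e 4 * e 0 - 3 * e 3 * e 1 + e 2 ^ 2)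

/-- The second invariant of the quartic. -/
def QT (e : Fin 5 → R) : R :=
  - (72 * e 4 * e 2 * e 0 + 9 * e 3 * e 2 * e 1 - 27 * e 4 * e 1 ^ 2 - 27 * e 0 * e 3 ^ 2 - 2 * e 2 ^ 3)

/-- The quartic. -/
def qua (e : Fin 5 → R) (s : R) : R := e 4 * s ^ 4 + e 3 * s ^ 3 + e 2 * s ^ 2 + e 1 * s + e 0

end quartic

/-- The function field `F = k (τ, s, y)` of a surface fibred over the `τ`-line by the curves `y² = e (s)` of genus one,
where the quartic `e` depends only on `τ²`. -/
structure CQ (k F : Type u) [Field k] [Field F] [Algebra k F] where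
  τ : F
  s : F
  y : F
  ι : F ≃ₐ[k] F
  e : Fin 5 → k[X]
  ind : AlgebraicIndependent k ![τ, s]
  gen : IntermediateField.adjoin k {τ, s, y} = ⊤
  ιτ : ι τ = - τ
  ιs : ι s = s
  ιy : ι y = y
  eqn : y ^ 2 = qua (fun i => aeval (τ ^ 2) (e i)) s
  e4 : e 4 ≠ 0
  dsc : 4 * QS e ^ 3 + QT e ^ 2 ≠ 0

/-- The involution of the quartic data. -/
lemma CQ.ι_ι {k F : Type u} [Field k] [Field F] [Algebra k F] (D : CQ k F) (z : F) : D.ι (D.ι z) = z := by
  have h1 : ∀ z ∈ IntermediateField.adjoin k {D.τ, D.s, D.y}, D.ι (D.ι z) = z := by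
    intro z hz
    induction hz using IntermediateField.adjoin_induction with
    | mem x hx =>
      rcases hx with rfl | rfl | rfl
      · rw [D.ιτ, map_neg, D.ιτ, neg_neg]
      · rw [D.ιs, D.ιs]
      · rw [D.ιy, D.ιy]
    | algebraMap x => rw [AlgEquiv.commutes, AlgEquiv.commutes]
    | add x y _ _ hx hy => rw [map_add, map_add, hx, hy]
    | inv x _ hx => rw [map_inv₀, map_inv₀, hx]
    | mul x y _ _ hx hy => rw [map_mul, map_mul, hx, hy]
  exact h1 z (by rw [D.gen]; exact IntermediateField.mem_top)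

end Pool.Agent.Helper15.KP

end CX
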