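import Mathlib
import Pool.Agent.Helper9.NS
import Pool.Agent.Helper40.CX.H15KP.Fam
import Pool.Agent.Helper40.CX.H15GT.RDec
import Pool.Agent.Helper40.CX.Good2

namespace CX

/-!
# KP: transfer of Voisin's property along a finite family of embeddings
-/

set_option linter.unusedSectionVars false

namespace Pool.Agent.Helper15.KP

open VC VF Function Polynomial Pool.Agent.Helper21.TO Pool.Agent.Helper15.GT

universe u

variable {k : Type u} [Field k] [IsAlgClosed k] [Good k]

/-- `F → N ← E`, a finite family of embeddings `f j` of `F` in `N`. If Voisin's property holds for the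
combinations in `A` of places of `E`, then it holds for the cycles on the models of `F` which are, up to a factor
and modulo the kernel of all functionals, sums over the family of (lifts of) combinations in `A`. -/
theorem voisin_fam {F N E : Type u} [Field F] [Algebra k F] [Field N] [Algebra k N] [Field E] [Algebra k E]
    {ι : Type u} [Fintype ι] [Nonempty ι] (f : ι → F →ₐ[k] N) (e : E →ₐ[k] N) (Hs : Set (N ≃ₐ[k] N))
    (he : ∀ z : N, (∀ σ ∈ Hs, σ z = z) → z ∈ Set.range e)
    (hp : ∀ σ ∈ Hs, ∃ π : Equiv.Perm ι, ∀ j x, σ (f j x) = f (π j) x) (A : Set (RPl k E →₀ ℤ)) {p : ℕ}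
    (hV : ∀ (M : ℕ) (η : Fin M → E) (hη : η ≠ 0) (n : ℕ), p < n →
      VoisinOn (proj k (van k η)) {b | ∃ a ∈ A, b = a.mapDomain (evP η hη)} n)
    {M : ℕ} (ξ : Fin M → F) (hξ : ξ ≠ 0) {n : ℕ} (hn : p < n) (H : Set (proj k (van k ξ)).Cycles)
    (hH : ∀ b ∈ H, ∃ D : ℕ, 0 < D ∧ ∃ a : RPl k N →₀ ℤ, a.mapDomain (fun w => w.comap e) ∈ A ∧
      ∀ φ, Kills (proj k (van k ξ)) φ → (D : ℂ) * Finsupp.linearCombination ℤ φ b =
        Finsupp.linearCombination ℤ (fun w => ∑ j, φ (evP ξ hξ (w.comap (f j)))) a) :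
    VoisinOn (proj k (van k ξ)) H n := by
  classical
  obtain ⟨η, hη, hcor, hev⟩ := exists_fam f e ξ hξ (fun l => nm_mem_of_perm f e Hs he hp ξ l)
  refine voisinOn_dec (m := 1) (S := proj k (van k ξ)) (fun K _ _ hK p => pconst K hK p)
    (X := fun _ => proj k (van k η)) (Z := fun _ => Zc ι (van k ξ) (Fintype.card ι)) (fun _ => hcor)
    (fun _ => {b | ∃ a ∈ A, b = a.mapDomain (evP η hη)}) (fun _ => p)
    (fun _ n' hn' => hV _ η hη n' hn') (by simpa using hn) H ?_
  intro b hb
  obtain ⟨D, hD, a, ha, hφ⟩ := hH b hb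
  refine ⟨D, hD, fun _ => (a.mapDomain (fun w => w.comap e)).mapDomain (evP η hη), fun _ => ⟨_, ha, rfl⟩, ?_⟩
  intro φ hk
  have h1 := hφ φ hk
  rw [map_sub, map_nsmul, nsmul_eq_mul, h1, Fin.sum_univ_one, ← Finsupp.mapDomain_comp,
    Finsupp.linearCombination_mapDomain]
  have h2 : ∀ c : RPl k N →₀ ℤ, Finsupp.linearCombination ℤ φ (Finsupp.linearCombination ℤ
      (Zc ι (van k ξ) (Fintype.card ι) ∘ evP η hη ∘ fun w : RPl k N => w.comap e) c) =
      Finsupp.linearCombination ℤ (fun w => ∑ j, φ (evP ξ hξ (w.comap (f j)))) c := by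
    intro c
    rw [Finsupp.linearCombination_apply ℤ c, Finsupp.sum, map_sum, Finsupp.linearCombination_apply, Finsupp.sum]
    refine Finset.sum_congr rfl fun w _ => ?_
    rw [map_smul]
    congr 1
    change Finsupp.linearCombination ℤ φ (Zc ι (van k ξ) (Fintype.card ι) (evP η hη (w.comap e))) = _
    rw [hev w, map_sum]
    refine Finset.sum_congr rfl fun j _ => ?_
    rw [Finsupp.linearCombination_single, one_smul]
  rw [h2, sub_self]

end Pool.Agent.Helper15.KP

end CX
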