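import Mathlib
import Pool.Agent.Helper9.NS
import Pool.Agent.Helper40.CX.H15KP.HFb
import Pool.Agent.Helper40.CX.H15KP.StepA
import Pool.Agent.Helper40.CX.Good2

namespace CX

/-!
# KP: harmonic functions under Voisin's property for `n = 1`
-/

set_option linter.unusedSectionVars false

namespace Pool.Agent.Helper15.KP

open VC VF Function Polynomial Pool.Agent.Helper21.TO Pool.Agent.Helper15.GT

universe u

variable {k : Type u} [Field k] [IsAlgClosed k] [Good k]

lemma lin_extProd_one {X : Variety k} (φ : X.Pt → ℂ) (a : Fin 1 → X.Cycles) :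
    Finsupp.linearCombination ℤ (fun x : (X.pow 1).Pt => φ (x 0)) (extProd a) = Finsupp.linearCombination ℤ φ (a 0) := by
  classical
  unfold extProd
  rw [map_sum, Finsupp.linearCombination_apply, Finsupp.sum]
  refine Finset.sum_nbij' (fun p => p 0) (fun x => fun _ => x) ?_ ?_ ?_ ?_ ?_
  · intro p hp
    exact Fintype.mem_piFinset.mp hp 0
  · intro x hx
    rw [Fintype.mem_piFinset]
    intro i
    rw [Fin.fin_one_eq_zero i]
    exact hx
  · intro p _
    funext i
    rw [Fin.fin_one_eq_zero i]
  · intro x _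
    rfl
  · intro p _
    rw [Finsupp.linearCombination_single, Fin.prod_univ_one]

lemma kills_one {X : Variety k} {φ : X.Pt → ℂ} (hφ : Kills X φ) :
    Kills (X.pow 1) (fun x => φ (x 0)) := by
  refine kills_of_gen fun K _ _ hK c f hf => ?_
  exact hφ.gen hK (c 0) hf

/-- If Voisin's property holds for `n = 1` then all harmonic functions are constant. -/
theorem HF.const_of_vp {F : Type u} [Field F] [Algebra k F] (h : VP k F 0) {u : RPl k F → ℂ} (hu : HF k F u)
    (w w' : RPl k F) : u w = u w' := by
  classical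
  obtain ⟨M, ξ, hξ, φ, hφ, hu⟩ := hu
  rw [hu w, hu w']
  obtain ⟨m, hm, hR⟩ := h M ξ hξ 1 one_pos
    (fun _ => Finsupp.single (evP ξ hξ w) 1 - Finsupp.single (evP ξ hξ w') 1) (fun _ => by
      rw [Finsupp.sum_sub_index (fun _ _ _ => rfl)]
      simp)
  have h1 := kills_one hφ _ hR
  rw [map_nsmul, map_sum] at h1
  have h2 : ∀ σ : Equiv.Perm (Fin 1), Finsupp.linearCombination ℤ (fun x : ((proj k (van k ξ)).pow 1).Pt => φ (x 0))
      (((Equiv.Perm.sign σ : ℤˣ) : ℤ) • extProd (fun _ => (Finsupp.single (evP ξ hξ w) 1 -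
        Finsupp.single (evP ξ hξ w') 1 : (proj k (van k ξ)).Cycles))) = φ (evP ξ hξ w) - φ (evP ξ hξ w') := by
    intro σ
    have hσ : σ = 1 := Subsingleton.elim _ _
    rw [hσ, Equiv.Perm.sign_one, Units.val_one, one_smul, lin_extProd_one, map_sub, Finsupp.linearCombination_single,
      Finsupp.linearCombination_single, one_smul, one_smul]
  rw [Finset.sum_congr rfl fun σ _ => h2 σ, Finset.sum_const, Finset.card_univ, Fintype.card_perm,
    Fintype.card_fin] at h1
  simp only [Nat.factorial_one, one_smul] at h1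
  rw [nsmul_eq_mul] at h1
  rcases mul_eq_zero.mp h1 with h3 | h3
  · exfalso
    exact (Nat.cast_ne_zero.mpr hm.ne') h3
  · exact sub_eq_zero.mp h3

end Pool.Agent.Helper15.KP

end CX
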