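import Mathlib
import Pool.Agent.Helper9.NS
import Pool.Agent.Helper40.CX.H15KP.Vp0
import Pool.Agent.Helper40.CX.H15KP.Ell0
import Pool.Agent.Helper40.CX.H70KX.Dbl
import Pool.Agent.Helper40.CX.H50KS.WeiDef2
import Pool.Agent.Helper40.CX.Good2

namespace CX

/-!
# KP: the double covers of the quadric cone, elliptic fibration over the `s`-line
-/

set_option linter.unusedSectionVars false

namespace Pool.Agent.Helper15.KP

open VC VF Function Polynomial Pool.Agent.Helper21.TO Pool.Agent.Helper15.GT Pool.Agent.Helper70.KX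

variable {k : Type} [Field k] [IsAlgClosed k] [Good k]

/-- A form of degree four in `t` and the square of one linear form has dependent derivatives. -/
lemma not_indepS {f2 f4 : k[X]} (U : k[X]) (c c' : k) (hU : U.natDegree ≤ 1) (hU0 : U ≠ 0)
    (h2 : f2 = C c * U ^ 2) (h4 : f4 = C c' * U ^ 4) : ¬ CX.KSq.IndepS f2 f4 := by
  intro h
  have hUe : U = C (U.coeff 1) * X + C (U.coeff 0) := eq_X_add_C_of_natDegree_le_one hU
  obtain ⟨u0, hu0⟩ : ∃ u0, u0 = U.coeff 0 := ⟨_, rfl⟩
  obtain ⟨u1, hu1⟩ : ∃ u1, u1 = U.coeff 1 := ⟨_, rfl⟩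
  rw [← hu0, ← hu1] at hUe
  have hd : derivative U = C u1 := by
    rw [hUe]
    simp
  have e2 : (C 2 : k[X]) = 2 := map_ofNat C 2
  have e4 : (C 4 : k[X]) = 4 := map_ofNat C 4
  obtain ⟨h5, h6⟩ := h u0 (-u1) (by
    rw [h2, derivative_C_mul, derivative_pow, hd, C_mul, C_neg, e2]
    simp only [Nat.cast_ofNat, map_ofNat]
    rw [hUe]
    ring) (by
    rw [h4, derivative_C_mul, derivative_pow, hd, C_mul, C_neg, e4]
    simp only [Nat.cast_ofNat, map_ofNat]
    rw [hUe]
    ring)
  apply hU0
  rw [hUe, h5, neg_eq_zero.mp h6]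
  simp

/-- DBL2: on the double cover of the quadric cone branched along the vertex, the curve `t = 0` and a curve of
degree four all harmonic functions are constant, if the curve does not depend on `t` and one linear form only. -/
theorem dbl2 {F : Type} [Field F] [Algebra k F] (s t v : F) (f0 : k) (f2 f4 : k[X]) (h2 : f2.natDegree ≤ 2)
    (h4 : f4.natDegree ≤ 4) (hst : AlgebraicIndependent k ![s, t])
    (hv : v ^ 2 = t * (algebraMap k F f0 * t ^ 2 + aeval s f2 * t + aeval s f4))
    (hgen : IntermediateField.adjoin k {s, t, v} = ⊤) (hi : CX.KSq.IndepS f2 f4) {u : RPl k F → ℂ} (hu : HF k F u)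
    (w w' : RPl k F) : u w = u w' := by
  have hcF : Good F := Good.ext k
  have hs : Transcendental k s := ind_fst hst
  have ht : Transcendental (IntermediateField.adjoin k {s}) t := ind_snd hst
  have ht0 : t ≠ 0 := fun h => ht (by rw [h]; exact isAlgebraic_zero)
  have hs0 : s ∈ IntermediateField.adjoin k {s} := IntermediateField.mem_adjoin_simple_self k s
  -- rational surfaces
  have hrat : ∀ m : F, t ∈ IntermediateField.adjoin k {s, m} → v ∈ IntermediateField.adjoin k {s, m} → u w = u w' := by
    intro m h1 h2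
    have htop : IntermediateField.adjoin k {s, m} = ⊤ := by
      rw [eq_top_iff, ← hgen, IntermediateField.adjoin_le_iff]
      rintro y (hy | hy | hy)
      · rw [hy]
        exact IntermediateField.subset_adjoin k _ (Or.inl rfl)
      · rw [hy]
        exact h1
      · rw [Set.mem_singleton_iff.mp hy]
        exact h2
    exact HF.const_of_rat s m (ind_of_gen hst (adjoin_pair_isAlgebraic htop)) htop hu w w'
  obtain ⟨m, hm⟩ : ∃ m, m = v / t := ⟨_, rfl⟩
  have hvm : v = m * t := by rw [hm, div_mul_cancel₀ _ ht0]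
  have hm2 : m ^ 2 * t = algebraMap k F f0 * t ^ 2 + aeval s f2 * t + aeval s f4 := by
    apply mul_right_cancel₀ ht0
    rw [hvm] at hv
    linear_combination hv
  have hsm : s ∈ IntermediateField.adjoin k {s, m} := IntermediateField.subset_adjoin k _ (Or.inl rfl)
  have hmm : m ∈ IntermediateField.adjoin k {s, m} := IntermediateField.subset_adjoin k _ (Or.inr rfl)
  by_cases hf4 : f4 = 0
  · -- m² = f0 t + f2
    have h1 : m ^ 2 = algebraMap k F f0 * t + aeval s f2 := by
      apply mul_right_cancel₀ ht0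
      rw [hm2, hf4, map_zero]
      ring
    by_cases hf0 : f0 = 0
    · have hst' : AlgebraicIndependent k ![t, s] := by
        have h3 := hst.comp (Equiv.swap (0 : Fin 2) 1) (Equiv.swap (0 : Fin 2) 1).injective
        have h4 : (![s, t] : Fin 2 → F) ∘ (Equiv.swap (0 : Fin 2) 1) = ![t, s] := by
          funext i
          fin_cases i <;> rfl
        rwa [h4] at h3
      have hfe : f2 = C (f2.coeff 2) * X ^ 2 + C (f2.coeff 1) * X + C (f2.coeff 0) := by
        have h3 := f2.as_sum_range' 3 (by omega)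
        rw [Finset.sum_range_succ, Finset.sum_range_succ, Finset.sum_range_one] at h3
        conv_lhs => rw [h3]
        simp only [← C_mul_X_pow_eq_monomial, pow_zero, mul_one, pow_one]
        ring
      refine dbl_nt t s m 0 (f2.coeff 2) (C (f2.coeff 1)) (C (f2.coeff 0)) hst' ?_ ?_ ?_ hu w w'
      · rw [h1, hf0]
        conv_lhs => rw [hfe]
        simp only [map_add, map_mul, map_pow, aeval_C, aeval_X, map_zero]
        ring
      · rw [eq_top_iff, ← hgen, IntermediateField.adjoin_le_iff]
        have h4 : s ∈ IntermediateField.adjoin k {t, s, m} := IntermediateField.subset_adjoin k _ (Or.inr (Or.inl rfl))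
        have h5 : t ∈ IntermediateField.adjoin k {t, s, m} := IntermediateField.subset_adjoin k _ (Or.inl rfl)
        have h6 : m ∈ IntermediateField.adjoin k {t, s, m} := IntermediateField.subset_adjoin k _ (Or.inr (Or.inr rfl))
        rintro y (hy | hy | hy)
        · rw [hy]
          exact h4
        · rw [hy]
          exact h5
        · rw [Set.mem_singleton_iff.mp hy, hvm]
          exact mul_mem h6 h5
      · rintro ⟨-, h7, h8⟩
        refine not_indepS 1 (f2.coeff 0) 0 (by simp) one_ne_zero ?_ ?_ hi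
        · rw [C_eq_zero] at h8
          conv_lhs => rw [hfe, h7, h8]
          simp
        · rw [hf4]
          simp
    · have hf0' : algebraMap k F f0 ≠ 0 := (_root_.map_ne_zero _).mpr hf0
      have h5 : t = (m ^ 2 - aeval s f2) / algebraMap k F f0 := by
        rw [h1]
        field_simp
        ring
      have h6 : t ∈ IntermediateField.adjoin k {s, m} := by
        rw [h5]
        exact div_mem (sub_mem (pow_mem hmm 2) (aeval_mem hsm f2)) ((IntermediateField.adjoin k {s, m}).algebraMap_mem f0)
      exact hrat m h6 (by rw [hvm]; exact mul_mem hmm h6)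
  by_cases hf0 : f0 = 0
  · -- (m² - f2) t = f4
    have h1 : (m ^ 2 - aeval s f2) * t = aeval s f4 := by
      rw [hf0, map_zero] at hm2
      linear_combination hm2
    have h3 : m ^ 2 - aeval s f2 ≠ 0 := by
      intro h
      rw [h, zero_mul] at h1
      exact aeval_ne hs hf4 h1.symm
    have h5 : t = aeval s f4 / (m ^ 2 - aeval s f2) := by
      rw [eq_div_iff h3, mul_comm]
      exact h1
    have h6 : t ∈ IntermediateField.adjoin k {s, m} := by
      rw [h5]
      exact div_mem (aeval_mem hsm f4) (sub_mem (pow_mem hmm 2) (aeval_mem hsm f2))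
    exact hrat m h6 (by rw [hvm]; exact mul_mem hmm h6)
  have hf0' : algebraMap k F f0 ≠ 0 := (_root_.map_ne_zero _).mpr hf0
  by_cases hdisc : f2 ^ 2 = 4 * C f0 * f4
  · -- a square
    have h1 : (aeval s f2) ^ 2 = 4 * algebraMap k F f0 * aeval s f4 := by
      have h := congrArg (aeval s) hdisc
      simpa only [map_pow, map_mul, map_ofNat, aeval_C] using h
    have h3 : algebraMap k F f0 * t + aeval s f2 / 2 ≠ 0 := by
      intro h
      apply ht
      have h4 : t = - (aeval s f2 / 2) / algebraMap k F f0 := by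
        rw [eq_div_iff hf0']
        linear_combination h
      rw [h4]
      have h5 : - (aeval s f2 / 2) / algebraMap k F f0 ∈ IntermediateField.adjoin k {s} := by
        refine div_mem (neg_mem (div_mem (aeval_mem hs0 f2) ?_)) ((IntermediateField.adjoin k {s}).algebraMap_mem f0)
        exact_mod_cast (IntermediateField.adjoin k {s}).natCast_mem 2
      exact isAlgebraic_algebraMap (⟨_, h5⟩ : IntermediateField.adjoin k {s})
    obtain ⟨n, hn⟩ : ∃ n, n = v / (algebraMap k F f0 * t + aeval s f2 / 2) := ⟨_, rfl⟩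
    have hvn : v = n * (algebraMap k F f0 * t + aeval s f2 / 2) := by rw [hn, div_mul_cancel₀ _ h3]
    have two : (2 : F) ≠ 0 := Good.n2
    have h4 : t = algebraMap k F f0 * n ^ 2 := by
      apply mul_right_cancel₀ (pow_ne_zero 2 h3)
      have h5 : algebraMap k F f0 * v ^ 2 = t * (algebraMap k F f0 * t + aeval s f2 / 2) ^ 2 := by
        obtain ⟨e, he⟩ : ∃ e, e = aeval s f2 / 2 := ⟨_, rfl⟩
        have he2 : aeval s f2 = 2 * e := by rw [he]; field_simp
        have four : (4 : F) ≠ 0 := Good.n4
        have h6 : e ^ 2 = algebraMap k F f0 * aeval s f4 := by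
          apply mul_left_cancel₀ four
          rw [he2] at h1
          linear_combination h1
        rw [hv, ← he, he2]
        linear_combination (-t) * h6
      rw [← h5, hvn]
      ring
    have hnn : n ∈ IntermediateField.adjoin k {s, n} := IntermediateField.subset_adjoin k _ (Or.inr rfl)
    have hsn : s ∈ IntermediateField.adjoin k {s, n} := IntermediateField.subset_adjoin k _ (Or.inl rfl)
    have h6 : t ∈ IntermediateField.adjoin k {s, n} := by
      rw [h4]
      exact mul_mem ((IntermediateField.adjoin k {s, n}).algebraMap_mem f0) (pow_mem hnn 2)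
    refine hrat n h6 ?_
    rw [hvn]
    refine mul_mem hnn (add_mem (mul_mem ((IntermediateField.adjoin k {s, n}).algebraMap_mem f0) h6)
      (div_mem (aeval_mem hsn f2) ?_))
    exact_mod_cast (IntermediateField.adjoin k {s, n}).natCast_mem 2
  -- the elliptic surface
  have e3 : (3 : F) ≠ 0 := Good.n3
  have k3 : (3 : k) ≠ 0 := Good.n3
  have c3 : (C (1 / 3 : k) : k[X]) * 3 = 1 := by
    rw [← C_1, ← map_ofNat (C : k →+* k[X]) 3, ← C_mul]
    congr 1
    field_simp
  have c27 : (C (2 / 27 : k) : k[X]) = 2 * C (1 / 3 : k) ^ 3 := by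
    have k27 : (27 : k) ≠ 0 := Good.n27
    rw [← map_ofNat (C : k →+* k[X]) 2, ← C_pow, ← C_mul]
    congr 1
    field_simp
    norm_num
  have cf : (C (f0 / 3 : k) : k[X]) = C f0 * C (1 / 3 : k) := by
    rw [← C_mul]
    congr 1
    ring
  obtain ⟨x, hx⟩ : ∃ x, x = algebraMap k F f0 * t + aeval s f2 / 3 := ⟨_, rfl⟩
  have htx : t = (x - aeval s f2 / 3) / algebraMap k F f0 := by
    rw [hx]
    field_simp
    ring
  refine HF.const_of_vp (CX.KPE.vp_ell0 (A := C f0 * f4 - C (1 / 3) * f2 ^ 2)
    (B := C (2 / 27) * f2 ^ 3 - C (f0 / 3) * f4 * f2) (l := s) (x := x) (y := algebraMap k F f0 * v)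
    ?_ ?_ ?_ ?_ ?_ ?_ ?_) hu w w'
  · refine (natDegree_sub_le _ _).trans (max_le ?_ ?_)
    · exact (natDegree_C_mul_le _ _).trans h4
    · refine (natDegree_C_mul_le _ _).trans ((natDegree_pow_le).trans ?_)
      omega
  · refine (natDegree_sub_le _ _).trans (max_le ?_ ?_)
    · refine (natDegree_C_mul_le _ _).trans ((natDegree_pow_le).trans ?_)
      omega
    · rw [mul_assoc]
      refine (natDegree_C_mul_le _ _).trans ((natDegree_mul_le).trans ?_)
      omega
  · intro h
    have h5 : (C f0 * f4) ^ 2 * (4 * C f0 * f4 - f2 ^ 2) = 0 := by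
      rw [c27, cf] at h
      obtain ⟨q, hq⟩ : ∃ q, q = (C (1 / 3 : k) : k[X]) := ⟨_, rfl⟩
      rw [← hq] at h c3
      obtain ⟨g, hg⟩ : ∃ g, f2 = 3 * g := ⟨q * f2, by linear_combination (-f2) * c3⟩
      have t1 : q * f2 ^ 2 = 3 * g ^ 2 := by
        rw [hg]
        linear_combination (3 * g ^ 2) * c3
      have t2 : 2 * q ^ 3 * f2 ^ 3 = 2 * g ^ 3 := by
        rw [hg]
        linear_combination (2 * g ^ 3 * ((q * 3) ^ 2 + q * 3 + 1)) * c3
      have t3 : C f0 * q * f4 * f2 = C f0 * f4 * g := by
        rw [hg]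
        linear_combination (C f0 * f4 * g) * c3
      rw [t1, t2, t3] at h
      rw [hg]
      linear_combination h
    rcases mul_eq_zero.mp h5 with h6 | h6
    · rcases mul_eq_zero.mp ((pow_eq_zero_iff two_ne_zero).mp h6) with h7 | h7
      · exact hf0 (C_eq_zero.mp h7)
      · exact hf4 h7
    · exact hdisc (sub_eq_zero.mp h6).symm
  · -- a product
    intro U α β hU hA hB
    obtain ⟨g, hg⟩ : ∃ g, g = C (1 / 3 : k) * f2 := ⟨_, rfl⟩
    have hfg : f2 = 3 * g := by
      rw [hg]
      linear_combination (-f2) * c3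
    have hA' : C f0 * f4 = C α * U ^ 4 + 3 * g ^ 2 := by
      rw [hfg] at hA
      linear_combination hA + 3 * g ^ 2 * c3
    have hroot : g ^ 3 + C α * U ^ 4 * g + C β * U ^ 6 = 0 := by
      rw [← hB, c27, cf, hfg]
      have hA2 : C α * U ^ 4 = C f0 * f4 - 3 * g ^ 2 := by rw [hA']; ring
      rw [hA2]
      linear_combination (2 * g ^ 3 * ((C (1 / 3 : k) * 3) ^ 2 + C (1 / 3 : k) * 3 + 1) - C f0 * f4 * g) * c3
    obtain ⟨r1, hr1⟩ : ∃ r : k, r ^ 3 + α * r + β = 0 := by
      have hd : (X ^ 3 + C α * X + C β : k[X]).degree = 3 := by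
        compute_degree!
      obtain ⟨r, hr⟩ := IsAlgClosed.exists_root (X ^ 3 + C α * X + C β : k[X]) (by rw [hd]; norm_num)
      refine ⟨r, ?_⟩
      have h1 : (X ^ 3 + C α * X + C β : k[X]).eval r = 0 := hr
      simpa using h1
    obtain ⟨r2, hr2⟩ : ∃ r : k, r ^ 2 + r1 * r + (α + r1 ^ 2) = 0 := by
      have hd : (X ^ 2 + C r1 * X + C (α + r1 ^ 2) : k[X]).degree = 2 := by
        compute_degree!
      obtain ⟨r, hr⟩ := IsAlgClosed.exists_root (X ^ 2 + C r1 * X + C (α + r1 ^ 2) : k[X]) (by rw [hd]; norm_num)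
      refine ⟨r, ?_⟩
      have h1 : (X ^ 2 + C r1 * X + C (α + r1 ^ 2) : k[X]).eval r = 0 := hr
      simpa using h1
    have hr1' := congrArg (C : k → k[X]) hr1
    have hr2' := congrArg (C : k → k[X]) hr2
    simp only [C_add, C_mul, C_pow, C_0] at hr1' hr2'
    have hprod : (g - C r1 * U ^ 2) * ((g - C r2 * U ^ 2) * (g - C (-r1 - r2) * U ^ 2)) = 0 := by
      rw [C_sub, C_neg]
      linear_combination hroot - U ^ 6 * hr1' - U ^ 4 * (g - C r1 * U ^ 2) * hr2'
    obtain ⟨r, hr⟩ : ∃ r : k, g = C r * U ^ 2 := by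
      rcases mul_eq_zero.mp hprod with h | h
      · exact ⟨r1, sub_eq_zero.mp h⟩
      · rcases mul_eq_zero.mp h with h | h
        · exact ⟨r2, sub_eq_zero.mp h⟩
        · exact ⟨_, sub_eq_zero.mp h⟩
    have hU0 : U ≠ 0 := by
      rintro rfl
      have h7 : C f0 * f4 = 0 := by
        rw [hA', hr]
        ring
      rcases mul_eq_zero.mp h7 with h8 | h8
      · exact hf0 (C_eq_zero.mp h8)
      · exact hf4 h8
    refine not_indepS U (3 * r) ((α + 3 * r ^ 2) / f0) hU hU0 ?_ ?_ hi
    · rw [hfg, hr, C_mul, map_ofNat]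
      ring
    · have h9 : C f0 * f4 = C f0 * (C ((α + 3 * r ^ 2) / f0) * U ^ 4) := by
        rw [← mul_assoc, ← C_mul, mul_div_cancel₀ _ hf0, hA', hr, C_add, C_mul, C_pow, map_ofNat]
        ring
      exact mul_left_cancel₀ (C_ne_zero.mpr hf0) h9
  · refine ind_of hs ?_
    intro h
    apply ht
    rw [htx]
    have h5 : aeval s f2 / 3 ∈ IntermediateField.adjoin k {s} := by
      refine div_mem (aeval_mem hs0 f2) ?_
      exact_mod_cast (IntermediateField.adjoin k {s}).natCast_mem 3
    have h6 : IsAlgebraic (IntermediateField.adjoin k {s}) (aeval s f2 / 3) :=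
      isAlgebraic_algebraMap (⟨_, h5⟩ : IntermediateField.adjoin k {s})
    have h7 : IsAlgebraic (IntermediateField.adjoin k {s}) (algebraMap k F f0)⁻¹ := by
      have h8 : (algebraMap k F f0)⁻¹ ∈ IntermediateField.adjoin k {s} :=
        inv_mem ((IntermediateField.adjoin k {s}).algebraMap_mem f0)
      exact isAlgebraic_algebraMap (⟨_, h8⟩ : IntermediateField.adjoin k {s})
    rw [div_eq_mul_inv]
    exact (h.sub h6).mul h7
  · rw [c27, cf]
    have a3 : algebraMap k F (1 / 3) = 1 / 3 := by
      rw [map_div₀, map_one, map_ofNat]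
    simp only [map_sub, map_mul, map_pow, aeval_C, a3, map_ofNat]
    rw [mul_pow, hv, hx]
    field_simp
    ring
  · rw [eq_top_iff, ← hgen, IntermediateField.adjoin_le_iff]
    have h5 : s ∈ IntermediateField.adjoin k {s, x, algebraMap k F f0 * v} :=
      IntermediateField.subset_adjoin k _ (Or.inl rfl)
    have h6 : x ∈ IntermediateField.adjoin k {s, x, algebraMap k F f0 * v} :=
      IntermediateField.subset_adjoin k _ (Or.inr (Or.inl rfl))
    have h7 : algebraMap k F f0 * v ∈ IntermediateField.adjoin k {s, x, algebraMap k F f0 * v} :=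
      IntermediateField.subset_adjoin k _ (Or.inr (Or.inr rfl))
    have h8 : algebraMap k F f0 ∈ IntermediateField.adjoin k {s, x, algebraMap k F f0 * v} :=
      (IntermediateField.adjoin k {s, x, algebraMap k F f0 * v}).algebraMap_mem f0
    rintro y (hy | hy | hy)
    · rw [hy]
      exact h5
    · rw [hy, htx]
      refine div_mem (sub_mem h6 (div_mem (aeval_mem h5 f2) ?_)) h8
      exact_mod_cast (IntermediateField.adjoin k {s, x, algebraMap k F f0 * v}).natCast_mem 3
    · rw [Set.mem_singleton_iff.mp hy]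
      have h9 := div_mem h7 h8
      rwa [mul_div_cancel_left₀ _ hf0'] at h9

end Pool.Agent.Helper15.KP

end CX
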